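import Mathlib
import Pool.Agent.Q95.GridGP

/-!
Problem MP_2aa471_co: the `k`-general position number of the `n`-dimensional integer grid.
-/

namespace Pool.Agent.Results.MP_2aa471_co.EveryGrid

open Pool.Agent.Q95.GridGP

/-- The `k`-general position number of the `n`-dimensional infinite grid is `(k-1)^(2^(n-1))`, for
all `k ≥ 2` and `n ≥ 1`: every `k`-general position set is finite and has at most this number of
points, and there is one with exactly this number of points. -/
theorem result : ∀ k n : ℕ, 2 ≤ k → 1 ≤ n →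
    (∀ S : Set (Fin n → ℤ), KGen k S → S.Finite ∧ S.ncard ≤ (k - 1) ^ (2 ^ (n - 1))) ∧
    ∃ S : Set (Fin n → ℤ), KGen k S ∧ S.Finite ∧ S.ncard = (k - 1) ^ (2 ^ (n - 1)) := by
  classical
  intro k n hk hn
  obtain ⟨m, rfl⟩ : ∃ m, n = m + 1 := ⟨n - 1, by omega⟩
  rw [Nat.add_sub_cancel]
  refine ⟨fun S hS => ?_, ?_⟩
  · have hfin : S.Finite := by
      by_contra hinf
      obtain ⟨T, hT, hcard⟩ := Set.Infinite.exists_subset_card_eq hinf
        ((k - 1) ^ (2 ^ m) + 1)
      have := upper hk T (fun C hC => hS C (hC.trans hT))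
      omega
    refine ⟨hfin, ?_⟩
    have := upper hk hfin.toFinset (fun C hC => hS C (by simpa using hC))
    rwa [← Set.ncard_eq_toFinset_card S hfin] at this
  · obtain ⟨S, hS, hcard⟩ := lower hk m
    exact ⟨S, hS, S.finite_toSet, by rw [Set.ncard_coe_finset, hcard]⟩

end Pool.Agent.Results.MP_2aa471_co.EveryGrid
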